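import Mathlib

/-!
The folded Gaussian kernel on the half line, its total positivity of order two, and the
log-concavity in the number of steps of the survival probabilities of a Gaussian random walk
in an interval.
-/

namespace Pool.Agent.Q240.BX

open MeasureTheory ProbabilityTheory Set
open scoped ENNReal NNReal

/-- The folded Gaussian kernel on the half line. -/
noncomputable def ker (δ : ℝ≥0) (x y : ℝ) : ℝ≥0∞ :=
  gaussianPDF 0 δ (y - x) + gaussianPDF 0 δ (y + x)

/-- The folded Gaussian operator. -/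
noncomputable def K (δ : ℝ≥0) (f : ℝ → ℝ≥0∞) (x : ℝ) : ℝ≥0∞ :=
  ∫⁻ y in Ioi (0 : ℝ), ker δ x y * f y

lemma measurable_ker (δ : ℝ≥0) : Measurable (fun p : ℝ × ℝ => ker δ p.1 p.2) := by
  unfold ker
  have h := measurable_gaussianPDF 0 δ
  exact (h.comp (measurable_snd.sub measurable_fst)).add
    (h.comp (measurable_snd.add measurable_fst))

lemma measurable_ker_right (δ : ℝ≥0) (x : ℝ) : Measurable (fun y => ker δ x y) := by
  unfold ker
  have h := measurable_gaussianPDF 0 δ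
  exact (h.comp (measurable_id.sub measurable_const)).add
    (h.comp (measurable_id.add measurable_const))

lemma measurable_ker_mul (δ : ℝ≥0) (x : ℝ) {f : ℝ → ℝ≥0∞} (hf : Measurable f) :
    Measurable (fun y => ker δ x y * f y) :=
  (measurable_ker_right δ x).mul hf

lemma ker_symm (δ : ℝ≥0) (x y : ℝ) : ker δ (-x) y = ker δ x y := by
  unfold ker
  rw [sub_neg_eq_add, ← sub_eq_add_neg, add_comm]

lemma K_even (δ : ℝ≥0) (f : ℝ → ℝ≥0∞) (x : ℝ) : K δ f (-x) = K δ f x := by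
  unfold K
  simp_rw [ker_symm]

lemma measurable_K (δ : ℝ≥0) {f : ℝ → ℝ≥0∞} (hf : Measurable f) : Measurable (K δ f) := by
  unfold K
  apply Measurable.lintegral_prod_right' (f := fun p : ℝ × ℝ => ker δ p.1 p.2 * f p.2)
  exact (measurable_ker δ).mul (hf.comp measurable_snd)

lemma ker_eq (δ : ℝ≥0) (hδ : δ ≠ 0) (x y : ℝ) : ker δ x y =
    ENNReal.ofReal ((Real.sqrt (2 * Real.pi * δ))⁻¹ *
      (2 * Real.exp (-(x ^ 2 + y ^ 2) / (2 * δ)) * Real.cosh (x * y / δ))) := by
  have hδ' : (δ : ℝ) ≠ 0 := by exact_mod_cast hδ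
  unfold ker gaussianPDF
  rw [← ENNReal.ofReal_add (gaussianPDFReal_nonneg _ _ _) (gaussianPDFReal_nonneg _ _ _)]
  congr 1
  unfold gaussianPDFReal
  rw [← mul_add]
  congr 1
  rw [Real.cosh_eq, mul_div_assoc', mul_add]
  have h1 : Real.exp (-(y - x - 0) ^ 2 / (2 * δ)) =
      Real.exp (-(x ^ 2 + y ^ 2) / (2 * δ)) * Real.exp (x * y / δ) := by
    rw [← Real.exp_add]; congr 1; field_simp; ring
  have h2 : Real.exp (-(y + x - 0) ^ 2 / (2 * δ)) =
      Real.exp (-(x ^ 2 + y ^ 2) / (2 * δ)) * Real.exp (-(x * y / δ)) := by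
    rw [← Real.exp_add]; congr 1; field_simp; ring
  rw [h1, h2]; ring

lemma cosh_tp2 {x x' y y' : ℝ} (hx : 0 ≤ x) (hxx : x ≤ x') (hy : 0 ≤ y) (hyy : y ≤ y') :
    Real.cosh (x * y') * Real.cosh (x' * y) ≤ Real.cosh (x * y) * Real.cosh (x' * y') := by
  have e : ∀ a b : ℝ, Real.cosh a * Real.cosh b = (Real.cosh (a + b) + Real.cosh (a - b)) / 2 := by
    intro a b
    rw [Real.cosh_add, Real.cosh_sub]; ring
  rw [e, e]
  have hx' : 0 ≤ x' := hx.trans hxx
  have hy' : 0 ≤ y' := hy.trans hyy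
  have h1 : Real.cosh (x * y' + x' * y) ≤ Real.cosh (x * y + x' * y') := by
    rw [Real.cosh_le_cosh, abs_of_nonneg (by positivity), abs_of_nonneg (by positivity)]
    nlinarith [mul_nonneg (sub_nonneg.2 hxx) (sub_nonneg.2 hyy)]
  have h2 : Real.cosh (x * y' - x' * y) ≤ Real.cosh (x * y - x' * y') := by
    rw [Real.cosh_le_cosh]
    have h3 : |x * y - x' * y'| = x' * y' - x * y := by
      rw [abs_sub_comm, abs_of_nonneg]
      nlinarith [mul_le_mul hxx hyy hy hx']
    rw [h3, abs_le]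
    constructor
    · nlinarith [mul_nonneg (add_nonneg hx hx') (sub_nonneg.2 hyy)]
    · nlinarith [mul_nonneg (sub_nonneg.2 hxx) (add_nonneg hy hy')]
  linarith

lemma ker_tp2 {δ : ℝ≥0} (hδ : δ ≠ 0) {x x' y y' : ℝ} (hx : 0 ≤ x) (hxx : x ≤ x') (hy : 0 ≤ y)
    (hyy : y ≤ y') : ker δ x y' * ker δ x' y ≤ ker δ x y * ker δ x' y' := by
  have hδ' : (0 : ℝ) < δ := by exact_mod_cast pos_iff_ne_zero.2 hδ
  rw [ker_eq δ hδ, ker_eq δ hδ, ker_eq δ hδ, ker_eq δ hδ]
  have hc : ∀ t : ℝ, 0 < Real.cosh t := Real.cosh_pos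
  rw [← ENNReal.ofReal_mul (by have := hc (x * y' / δ); positivity),
    ← ENNReal.ofReal_mul (by have := hc (x * y / δ); positivity)]
  apply ENNReal.ofReal_le_ofReal
  have h := cosh_tp2 (x := x) (x' := x') (y := y / δ) (y' := y' / δ) hx hxx (by positivity)
    (by gcongr)
  rw [← mul_div_assoc, ← mul_div_assoc, ← mul_div_assoc, ← mul_div_assoc] at h
  have e : Real.exp (-(x ^ 2 + y' ^ 2) / (2 * δ)) * Real.exp (-(x' ^ 2 + y ^ 2) / (2 * δ)) =
      Real.exp (-(x ^ 2 + y ^ 2) / (2 * δ)) * Real.exp (-(x' ^ 2 + y' ^ 2) / (2 * δ)) := by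
    rw [← Real.exp_add, ← Real.exp_add]; congr 1; ring
  calc _ = (Real.sqrt (2 * Real.pi * δ))⁻¹ ^ 2 * 4 *
        (Real.exp (-(x ^ 2 + y' ^ 2) / (2 * δ)) * Real.exp (-(x' ^ 2 + y ^ 2) / (2 * δ))) *
        (Real.cosh (x * y' / δ) * Real.cosh (x' * y / δ)) := by ring
    _ ≤ (Real.sqrt (2 * Real.pi * δ))⁻¹ ^ 2 * 4 *
        (Real.exp (-(x ^ 2 + y' ^ 2) / (2 * δ)) * Real.exp (-(x' ^ 2 + y ^ 2) / (2 * δ))) *
        (Real.cosh (x * y / δ) * Real.cosh (x' * y' / δ)) := by gcongr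
    _ = _ := by rw [e]; ring

lemma rearr {p q u v : ℝ≥0∞} (h1 : q ≤ p) (h2 : v ≤ u) : q * u + p * v ≤ p * u + q * v := by
  obtain ⟨r, rfl⟩ := le_iff_exists_add.1 h1
  obtain ⟨s, rfl⟩ := le_iff_exists_add.1 h2
  have : (q + r) * (v + s) + q * v = q * (v + s) + (q + r) * v + r * s := by ring
  rw [this]
  exact le_self_add

/-- The folded Gaussian operator preserves the order by likelihood ratio. -/
lemma K_tp2 {δ : ℝ≥0} (hδ : δ ≠ 0) {f g : ℝ → ℝ≥0∞} (hf : Measurable f) (hg : Measurable g)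
    (hfg : ∀ y z, 0 ≤ y → y ≤ z → f z * g y ≤ f y * g z) {x x' : ℝ} (hx : 0 ≤ x)
    (hxx : x ≤ x') : K δ f x' * K δ g x ≤ K δ f x * K δ g x' := by
  set μ := volume.restrict (Ioi (0 : ℝ)) with hμ
  have mk : ∀ t : ℝ, Measurable (ker δ t) := measurable_ker_right δ
  have mf : ∀ t : ℝ, Measurable (fun y => ker δ t y * f y) := fun t => (mk t).mul hf
  have mg : ∀ t : ℝ, Measurable (fun y => ker δ t y * g y) := fun t => (mk t).mul hg
  have eB : K δ f x' * K δ g x =
      ∫⁻ y, ∫⁻ z, (ker δ x' y * f y) * (ker δ x z * g z) ∂μ ∂μ :=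
    (lintegral_lintegral_mul (mf x').aemeasurable (mg x).aemeasurable).symm
  have eA : K δ f x * K δ g x' =
      ∫⁻ y, ∫⁻ z, (ker δ x y * f y) * (ker δ x' z * g z) ∂μ ∂μ :=
    (lintegral_lintegral_mul (mf x).aemeasurable (mg x').aemeasurable).symm
  have eB' : K δ f x' * K δ g x =
      ∫⁻ y, ∫⁻ z, (ker δ x' z * f z) * (ker δ x y * g y) ∂μ ∂μ := by
    rw [mul_comm]
    have := (lintegral_lintegral_mul (μ := μ) (ν := μ) (mg x).aemeasurable
      (mf x').aemeasurable).symm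
    refine this.trans ?_
    congr with y
    congr with z
    rw [mul_comm]
  have eA' : K δ f x * K δ g x' =
      ∫⁻ y, ∫⁻ z, (ker δ x z * f z) * (ker δ x' y * g y) ∂μ ∂μ := by
    rw [mul_comm]
    have := (lintegral_lintegral_mul (μ := μ) (ν := μ) (mg x').aemeasurable
      (mf x).aemeasurable).symm
    refine this.trans ?_
    congr with y
    congr with z
    rw [mul_comm]
  have m1 : ∀ (a b : ℝ) (f₁ g₁ : ℝ → ℝ≥0∞), Measurable f₁ → Measurable g₁ →
      Measurable (fun p : ℝ × ℝ => (ker δ a p.1 * f₁ p.1) * (ker δ b p.2 * g₁ p.2)) := by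
    intro a b f₁ g₁ h1 h2
    exact (((mk a).mul h1).comp measurable_fst).mul (((mk b).mul h2).comp measurable_snd)
  have m2 : ∀ (a b : ℝ) (f₁ g₁ : ℝ → ℝ≥0∞), Measurable f₁ → Measurable g₁ →
      Measurable (fun y => ∫⁻ z, (ker δ a y * f₁ y) * (ker δ b z * g₁ z) ∂μ) := by
    intro a b f₁ g₁ h1 h2
    exact Measurable.lintegral_prod_right' (m1 a b f₁ g₁ h1 h2)
  have m3 : ∀ (a b : ℝ) (f₁ g₁ : ℝ → ℝ≥0∞), Measurable f₁ → Measurable g₁ → ∀ y,
      Measurable (fun z => (ker δ a y * f₁ y) * (ker δ b z * g₁ z)) := by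
    intro a b f₁ g₁ h1 h2 y
    exact ((mk b).mul h2).const_mul _
  have key : K δ f x' * K δ g x + K δ f x' * K δ g x ≤
      K δ f x * K δ g x' + K δ f x * K δ g x' := by
    conv_lhs => arg 1; rw [eB]
    conv_lhs => arg 2; rw [eB']
    conv_rhs => arg 1; rw [eA]
    conv_rhs => arg 2; rw [eA']
    rw [← lintegral_add_left (m2 x' x f g hf hg), ← lintegral_add_left (m2 x x' f g hf hg)]
    apply lintegral_mono_ae
    filter_upwards [ae_restrict_mem measurableSet_Ioi] with y hy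
    rw [← lintegral_add_left (m3 x' x f g hf hg y), ← lintegral_add_left (m3 x x' f g hf hg y)]
    apply lintegral_mono_ae
    filter_upwards [ae_restrict_mem measurableSet_Ioi] with z hz
    have hy0 : (0 : ℝ) ≤ y := le_of_lt hy
    have hz0 : (0 : ℝ) ≤ z := le_of_lt hz
    rcases le_total y z with h | h
    · have a1 := ker_tp2 hδ hx hxx hy0 h
      have a2 := hfg y z hy0 h
      calc _ = (ker δ x z * ker δ x' y) * (f y * g z) + (ker δ x y * ker δ x' z) * (f z * g y) := by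
            ring
        _ ≤ (ker δ x y * ker δ x' z) * (f y * g z) + (ker δ x z * ker δ x' y) * (f z * g y) :=
            rearr a1 a2
        _ = _ := by ring
    · have a1 := ker_tp2 hδ hx hxx hz0 h
      have a2 := hfg z y hz0 h
      calc _ = (ker δ x y * ker δ x' z) * (f z * g y) + (ker δ x z * ker δ x' y) * (f y * g z) := by
            ring
        _ ≤ (ker δ x z * ker δ x' y) * (f z * g y) + (ker δ x y * ker δ x' z) * (f y * g z) :=
            rearr a1 a2
        _ = _ := by ring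
  rw [← two_mul, ← two_mul] at key
  exact (ENNReal.mul_le_mul_iff_right (by norm_num) (by norm_num)).1 key

/-- Expectation of an even function of a Gaussian shifted by `x`. -/
lemma gauss_even {δ : ℝ≥0} (hδ : δ ≠ 0) {f : ℝ → ℝ≥0∞} (hf : Measurable f)
    (hev : ∀ y, f (-y) = f y) (x : ℝ) : ∫⁻ z, f (x + z) ∂(gaussianReal 0 δ) = K δ f x := by
  rw [gaussianReal_of_var_ne_zero 0 hδ]
  have mp := measurable_gaussianPDF 0 δ
  have mfx : Measurable (fun z => f (x + z)) := hf.comp (measurable_const_add x)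
  rw [lintegral_withDensity_eq_lintegral_mul _ mp mfx]
  have e1 : ∫⁻ a, (gaussianPDF 0 δ * (fun z => f (x + z))) a =
      ∫⁻ y, gaussianPDF 0 δ (y - x) * f y := by
    rw [← lintegral_add_right_eq_self (fun y => gaussianPDF 0 δ (y - x) * f y) x]
    congr with a
    simp [add_comm]
  rw [e1, ← lintegral_add_compl _ (measurableSet_Ioi (a := (0 : ℝ))), compl_Ioi]
  have m1 : Measurable (fun y => gaussianPDF 0 δ (y - x) * f y) :=
    (mp.comp (measurable_sub_const x)).mul hf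
  have e2 : ∫⁻ y in Iic (0 : ℝ), gaussianPDF 0 δ (y - x) * f y =
      ∫⁻ y in Ioi (0 : ℝ), gaussianPDF 0 δ (y + x) * f y := by
    rw [Measure.restrict_congr_set (Ioi_ae_eq_Ici (a := (0 : ℝ)))]
    have h := (Measure.measurePreserving_neg (volume : Measure ℝ)).setLIntegral_comp_preimage
      (measurableSet_Iic (a := (0 : ℝ))) m1
    rw [← h]
    have hs : (Neg.neg ⁻¹' Iic (0 : ℝ)) = Ici 0 := by ext t; simp
    rw [hs]
    congr with y
    rw [hev]
    congr 1
    unfold gaussianPDF gaussianPDFReal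
    congr 3
    ring
  rw [e2]
  unfold K ker
  rw [← lintegral_add_left m1]
  congr with y
  rw [add_mul]

lemma K_one {δ : ℝ≥0} (hδ : δ ≠ 0) (x : ℝ) : K δ (fun _ => 1) x = 1 := by
  rw [← gauss_even hδ measurable_const (fun _ => rfl) x]
  simp

/-- The survival probabilities of the Gaussian random walk with variance `δ` in `[-1,1]`. -/
noncomputable def w (δ : ℝ≥0) : ℕ → ℝ → ℝ≥0∞
  | 0 => fun _ => 1
  | k + 1 => K δ ((Iic (1 : ℝ)).indicator (w δ k))

lemma w_zero (δ : ℝ≥0) (x : ℝ) : w δ 0 x = 1 := rfl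

lemma w_succ (δ : ℝ≥0) (k : ℕ) (x : ℝ) : w δ (k + 1) x = K δ ((Iic (1 : ℝ)).indicator (w δ k)) x :=
  rfl

lemma measurable_w (δ : ℝ≥0) : ∀ k, Measurable (w δ k)
  | 0 => measurable_const
  | k + 1 => measurable_K δ ((measurable_w δ k).indicator measurableSet_Iic)

lemma w_even (δ : ℝ≥0) : ∀ k x, w δ k (-x) = w δ k x
  | 0, _ => rfl
  | _ + 1, x => K_even δ _ x

lemma K_mono {δ : ℝ≥0} {f g : ℝ → ℝ≥0∞} (h : ∀ y, f y ≤ g y) (x : ℝ) : K δ f x ≤ K δ g x := by
  unfold K
  exact lintegral_mono fun y => mul_le_mul' le_rfl (h y)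

lemma w_le_one {δ : ℝ≥0} (hδ : δ ≠ 0) : ∀ k x, w δ k x ≤ 1
  | 0, _ => le_rfl
  | k + 1, x => by
    rw [w_succ, ← K_one hδ x]
    apply K_mono
    intro y
    by_cases hy : y ∈ Iic (1 : ℝ)
    · rw [indicator_of_mem hy]; exact w_le_one hδ k y
    · rw [indicator_of_notMem hy]; exact zero_le

lemma w_anti {δ : ℝ≥0} (hδ : δ ≠ 0) : ∀ k x, w δ (k + 1) x ≤ w δ k x
  | 0, x => w_le_one hδ 1 x
  | k + 1, x => by
    rw [w_succ, w_succ δ k]
    apply K_mono
    intro y
    exact indicator_le_indicator (w_anti hδ k y)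

lemma w_antitone {δ : ℝ≥0} (hδ : δ ≠ 0) (x : ℝ) : Antitone (fun k => w δ k x) :=
  antitone_nat_of_succ_le fun k => w_anti hδ k x

lemma w_pos {δ : ℝ≥0} (hδ : δ ≠ 0) : ∀ k x, 0 < w δ k x
  | 0, _ => by rw [w_zero]; exact one_pos
  | k + 1, x => by
    rw [w_succ]
    unfold K
    rw [lintegral_pos_iff_support (measurable_ker_mul δ x
      ((measurable_w δ k).indicator measurableSet_Iic))]
    have hsub : Ioc (0 : ℝ) 1 ⊆ Function.support
        (fun y => ker δ x y * (Iic (1 : ℝ)).indicator (w δ k) y) ∩ Ioi 0 := by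
      intro y hy
      refine ⟨?_, hy.1⟩
      rw [Function.mem_support, indicator_of_mem (show y ∈ Iic (1 : ℝ) from hy.2)]
      apply mul_ne_zero
      · unfold ker
        exact (add_pos_of_pos_of_nonneg (gaussianPDF_pos 0 hδ _) zero_le).ne'
      · exact (w_pos hδ k y).ne'
    rw [Measure.restrict_apply' measurableSet_Ioi]
    refine lt_of_lt_of_le ?_ (measure_mono hsub)
    simp

/-- The ratios of consecutive survival probabilities decrease away from the origin. -/
lemma w_ratio {δ : ℝ≥0} (hδ : δ ≠ 0) : ∀ k x x', 0 ≤ x → x ≤ x' →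
    w δ (k + 1) x' * w δ k x ≤ w δ (k + 1) x * w δ k x'
  | 0, x, x', hx, hxx => by
    have h := K_tp2 hδ (f := (Iic (1 : ℝ)).indicator (w δ 0)) (g := fun _ => 1)
      ((measurable_w δ 0).indicator measurableSet_Iic) measurable_const ?_ hx hxx
    · rw [K_one hδ, K_one hδ] at h
      exact h
    · intro y z _ hyz
      rw [mul_one, mul_one]
      by_cases hz : z ∈ Iic (1 : ℝ)
      · rw [indicator_of_mem hz, indicator_of_mem (show y ∈ Iic (1 : ℝ) from hyz.trans hz)]
        exact le_rfl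
      · rw [indicator_of_notMem hz]; exact zero_le
  | k + 1, x, x', hx, hxx => by
    refine K_tp2 hδ ((measurable_w δ (k + 1)).indicator measurableSet_Iic)
      ((measurable_w δ k).indicator measurableSet_Iic) ?_ hx hxx
    intro y z hy hyz
    by_cases hz : z ∈ Iic (1 : ℝ)
    · have hy1 : y ∈ Iic (1 : ℝ) := hyz.trans hz
      rw [indicator_of_mem hz, indicator_of_mem hy1, indicator_of_mem hz, indicator_of_mem hy1]
      exact w_ratio hδ k y z hy hyz
    · rw [indicator_of_notMem hz, zero_mul]; exact zero_le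

/-- Log-concavity at the origin. -/
lemma w_logconcave {δ : ℝ≥0} (hδ : δ ≠ 0) (k : ℕ) :
    w δ (k + 2) 0 * w δ k 0 ≤ w δ (k + 1) 0 * w δ (k + 1) 0 := by
  rw [w_succ δ (k + 1)]
  conv_rhs => arg 2; rw [w_succ δ k]
  unfold K
  rw [← lintegral_mul_const _ (measurable_ker_mul δ 0
      ((measurable_w δ (k + 1)).indicator measurableSet_Iic)),
    ← lintegral_const_mul _ (measurable_ker_mul δ 0
      ((measurable_w δ k).indicator measurableSet_Iic))]
  apply lintegral_mono_ae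
  filter_upwards [ae_restrict_mem measurableSet_Ioi] with y hy
  by_cases hy1 : y ∈ Iic (1 : ℝ)
  · rw [indicator_of_mem hy1, indicator_of_mem hy1]
    calc _ = ker δ 0 y * (w δ (k + 1) y * w δ k 0) := by ring
      _ ≤ ker δ 0 y * (w δ (k + 1) 0 * w δ k y) :=
          mul_le_mul' le_rfl (w_ratio hδ k 0 y le_rfl (le_of_lt hy))
      _ = _ := by ring
  · rw [indicator_of_notMem hy1, indicator_of_notMem hy1]
    simp

end Pool.Agent.Q240.BX
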