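import Pool.Agent.Q240.BX.Kernel

/-!
Survival probabilities of real Brownian motion in symmetric intervals, expressed through the
discrete survival probabilities along the dyadic times.
-/

namespace Pool.Agent.Q240.BX

open MeasureTheory ProbabilityTheory Set Filter
open scoped ENNReal NNReal Topology

variable {Ω : Type*} [MeasurableSpace Ω] {P : Measure Ω}

/-- Discrete survival probability of a pre-Brownian motion started from `x`. -/
lemma law_walk {δ : ℝ≥0} (hδ : δ ≠ 0) : ∀ (k : ℕ) (X : ℝ≥0 → Ω → ℝ),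
    IsPreBrownianReal X P → ∀ x : ℝ,
    P {ω | ∀ j < k, |x + X ((j + 1 : ℕ) * δ) ω| ≤ 1} = w δ k x := by
  intro k
  induction k with
  | zero =>
    intro X hX x
    have : IsProbabilityMeasure P := hX.isGaussianProcess.isProbabilityMeasure
    simp [w_zero]
  | succ k ih =>
    intro X hX x
    have : IsProbabilityMeasure P := hX.isGaussianProcess.isProbabilityMeasure
    have hY := hX.shift δ
    set U : Ω → ℝ := X δ with hU
    set V : Ω → (ℕ → ℝ) := fun ω j => X (δ + (j + 1 : ℕ) * δ) ω - X δ ω with hV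
    have mU : AEMeasurable U P := hX.aemeasurable δ
    have mV : AEMeasurable V P := aemeasurable_pi_lambda _ fun j =>
      (hX.aemeasurable _).sub (hX.aemeasurable _)
    have hind : IndepFun U V P := by
      have h := (hX.indepFun_shift δ).symm
      have m1 : Measurable (fun q : Set.Iic δ → ℝ => q ⟨δ, Set.mem_Iic.2 le_rfl⟩) :=
        measurable_pi_apply (X := fun _ : Set.Iic δ => ℝ) ⟨δ, Set.mem_Iic.2 le_rfl⟩
      have m2 : Measurable (fun (q : ℝ≥0 → ℝ) (j : ℕ) => q ((j + 1 : ℕ) * δ)) :=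
        measurable_pi_lambda _ fun j => measurable_pi_apply _
      exact h.comp m1 m2
    have hprod := (indepFun_iff_map_prod_eq_prod_map_map mU mV).1 hind
    set A : Set (ℝ × (ℕ → ℝ)) := {q | |x + q.1| ≤ 1 ∧ ∀ j < k, |x + q.1 + q.2 j| ≤ 1} with hA
    have mA : MeasurableSet A := by
      rw [hA]
      apply MeasurableSet.inter
      · change MeasurableSet {q : ℝ × (ℕ → ℝ) | |x + q.1| ≤ 1}
        exact measurableSet_le (by fun_prop) measurable_const
      · have : {q : ℝ × (ℕ → ℝ) | ∀ j < k, |x + q.1 + q.2 j| ≤ 1} =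
            ⋂ j ∈ Set.Iio k, {q | |x + q.1 + q.2 j| ≤ 1} := by
          ext q; simp
        change MeasurableSet {q : ℝ × (ℕ → ℝ) | ∀ j < k, |x + q.1 + q.2 j| ≤ 1}
        rw [this]
        refine MeasurableSet.biInter (Set.to_countable _) fun j _ => ?_
        exact measurableSet_le (by fun_prop) measurable_const
    have e1 : {ω | ∀ j < k + 1, |x + X ((j + 1 : ℕ) * δ) ω| ≤ 1} =
        (fun ω => (U ω, V ω)) ⁻¹' A := by
      ext ω
      rw [mem_preimage]
      change (∀ j < k + 1, |x + X ((j + 1 : ℕ) * δ) ω| ≤ 1) ↔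
        (|x + U ω| ≤ 1 ∧ ∀ j < k, |x + U ω + V ω j| ≤ 1)
      have e : ∀ j : ℕ, x + U ω + V ω j = x + X ((j + 1 + 1 : ℕ) * δ) ω := by
        intro j
        have : δ + (j + 1 : ℕ) * δ = (j + 1 + 1 : ℕ) * δ := by push_cast; ring
        rw [hV, hU]
        simp only [this]
        ring
      simp_rw [e]
      constructor
      · intro h
        refine ⟨?_, fun j hj => h (j + 1) (by omega)⟩
        have := h 0 (by omega)
        simpa using this
      · rintro ⟨h0, h1⟩ j hj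
        rcases j with _ | j
        · simpa using h0
        · exact h1 j (by omega)
    rw [e1, ← Measure.map_apply_of_aemeasurable (mU.prodMk mV) mA, hprod,
      Measure.prod_apply mA, (hX.hasLaw_eval δ).map_eq]
    set g : ℝ → ℝ≥0∞ := {y | |y| ≤ 1}.indicator (w δ k) with hg
    have mset : MeasurableSet {y : ℝ | |y| ≤ 1} := measurableSet_le (by fun_prop) measurable_const
    have mg : Measurable g := (measurable_w δ k).indicator mset
    have e2 : ∀ u : ℝ, (P.map V) (Prod.mk u ⁻¹' A) = g (x + u) := by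
      intro u
      rw [Measure.map_apply_of_aemeasurable mV (measurable_prodMk_left mA)]
      by_cases hu : |x + u| ≤ 1
      · rw [hg, indicator_of_mem (show x + u ∈ {y : ℝ | |y| ≤ 1} from hu)]
        rw [← ih _ hY (x + u)]
        congr 1
        ext ω
        change (|x + u| ≤ 1 ∧ ∀ j < k, |x + u + V ω j| ≤ 1) ↔
          ∀ j < k, |x + u + V ω j| ≤ 1
        exact and_iff_right hu
      · rw [hg, indicator_of_notMem (show x + u ∉ {y : ℝ | |y| ≤ 1} from hu)]
        have : V ⁻¹' (Prod.mk u ⁻¹' A) = ∅ := by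
          ext ω
          change (|x + u| ≤ 1 ∧ ∀ j < k, |x + u + V ω j| ≤ 1) ↔ _
          simp [hu]
        rw [this, measure_empty]
    simp_rw [e2]
    rw [gauss_even hδ mg ?_ x]
    · rw [w_succ]
      unfold K
      apply lintegral_congr_ae
      filter_upwards [ae_restrict_mem measurableSet_Ioi] with y hy
      have hy0 : (0 : ℝ) < y := hy
      congr 1
      by_cases h : y ≤ 1
      · rw [hg, indicator_of_mem (show y ∈ {y : ℝ | |y| ≤ 1} by
          change |y| ≤ 1; rwa [abs_of_pos hy0]), indicator_of_mem (show y ∈ Iic (1 : ℝ) from h)]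
      · rw [hg, indicator_of_notMem (show y ∉ {y : ℝ | |y| ≤ 1} by
          change ¬ |y| ≤ 1; rwa [abs_of_pos hy0]),
          indicator_of_notMem (show y ∉ Iic (1 : ℝ) from h)]
    · intro y
      by_cases h : |y| ≤ 1
      · rw [hg, indicator_of_mem (show -y ∈ {y : ℝ | |y| ≤ 1} by
          change |-y| ≤ 1; rwa [abs_neg]), indicator_of_mem (show y ∈ {y : ℝ | |y| ≤ 1} from h),
          w_even]
      · rw [hg, indicator_of_notMem (show -y ∉ {y : ℝ | |y| ≤ 1} by
          change ¬ |-y| ≤ 1; rwa [abs_neg]),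
          indicator_of_notMem (show y ∉ {y : ℝ | |y| ≤ 1} from h)]

/-- The dyadic step. -/
noncomputable def st (m : ℕ) : ℝ≥0 := (2⁻¹ : ℝ≥0) ^ m

lemma st_ne (m : ℕ) : st m ≠ 0 := by unfold st; positivity

lemma st_coe (m : ℕ) : ((st m : ℝ≥0) : ℝ) = ((2 : ℝ) ^ m)⁻¹ := by
  unfold st; push_cast; rw [inv_pow]

lemma st_succ (m : ℕ) : 2 * st (m + 1) = st m := by
  unfold st
  rw [pow_succ]
  have : (2 : ℝ≥0) * ((2⁻¹ : ℝ≥0) ^ m * 2⁻¹) = 2⁻¹ ^ m * (2 * 2⁻¹) := by ring
  rw [this, mul_inv_cancel₀ (by norm_num), mul_one]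

/-- Survival probability up to the last multiple of `2^{-m}` before `t`. -/
noncomputable def G (m : ℕ) (t : ℝ) : ℝ≥0∞ := w (st m) ⌊t * 2 ^ m⌋₊ 0

/-- Survival probability of Brownian motion in the closed interval `[-1,1]`. -/
noncomputable def F (t : ℝ) : ℝ≥0∞ := ⨅ m : ℕ, G m t

/-- Paths staying in `[-b,b]` at the multiples of `2^{-m}` before `t`. -/
def D (b : ℝ) (t : ℝ) (m : ℕ) : Set (ℝ≥0 → ℝ) :=
  {q | ∀ j < ⌊t * 2 ^ m⌋₊, |q ((j + 1 : ℕ) * st m)| ≤ b}

lemma D_eq (b t : ℝ) (m : ℕ) : D b t m =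
    ⋂ j ∈ Set.Iio ⌊t * 2 ^ m⌋₊, {q : ℝ≥0 → ℝ | |q ((j + 1 : ℕ) * st m)| ≤ b} := by
  ext q; simp [D]

lemma measurable_D (b t : ℝ) (m : ℕ) : MeasurableSet (D b t m) := by
  rw [D_eq]
  refine MeasurableSet.biInter (Set.to_countable _) fun j _ => ?_
  exact measurableSet_le (by fun_prop) measurable_const

lemma D_anti {b t : ℝ} (ht : 0 ≤ t) : Antitone (D b t) := by
  refine antitone_nat_of_succ_le fun m => ?_
  intro q hq j hj
  have h1 : 2 * j + 1 < ⌊t * 2 ^ (m + 1)⌋₊ := by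
    have h2 : 2 * ⌊t * 2 ^ m⌋₊ ≤ ⌊t * 2 ^ (m + 1)⌋₊ := by
      apply Nat.le_floor
      push_cast
      have := Nat.floor_le (show 0 ≤ t * 2 ^ m by positivity)
      rw [pow_succ]
      linarith
    omega
  have h3 := hq (2 * j + 1) h1
  have h4 : ((2 * j + 1 + 1 : ℕ) : ℝ≥0) * st (m + 1) = (j + 1 : ℕ) * st m := by
    rw [← st_succ m]; push_cast; ring
  rw [h4] at h3
  exact h3

variable {X : ℝ≥0 → Ω → ℝ}

/-- The path map. -/
def path (X : ℝ≥0 → Ω → ℝ) (ω : Ω) : ℝ≥0 → ℝ := fun t => X t ω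

lemma null_D (hX : IsPreBrownianReal X P) (b t : ℝ) (m : ℕ) :
    NullMeasurableSet (path X ⁻¹' D b t m) P := by
  rw [D_eq, preimage_iInter₂]
  refine NullMeasurableSet.biInter (Set.to_countable _) fun j _ => ?_
  exact (hX.aemeasurable _).nullMeasurableSet_preimage
    (measurableSet_le (f := fun y : ℝ => |y|) (by fun_prop) measurable_const)

lemma P_D (hX : IsPreBrownianReal X P) (t : ℝ) (m : ℕ) :
    P (path X ⁻¹' D 1 t m) = G m t := by
  unfold G
  rw [← law_walk (st_ne m) _ X hX 0]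
  congr 1
  ext ω
  change (∀ j < ⌊t * 2 ^ m⌋₊, |path X ω ((j + 1 : ℕ) * st m)| ≤ 1) ↔ _
  simp [path]

lemma G_anti (hX : IsPreBrownianReal X P) {t : ℝ} (ht : 0 ≤ t) : Antitone (fun m => G m t) := by
  intro m n hmn
  simp only
  rw [← P_D hX, ← P_D hX]
  exact measure_mono (preimage_mono (D_anti ht hmn))

lemma closed_ae (hX : IsBrownianReal X P) {b : ℝ} (hb : 0 ≤ b) (t : ℝ≥0) :
    (path X ⁻¹' ⋂ m, D b t m) =ᵐ[P] {ω | ∀ s ≤ t, |X s ω| ≤ b} := by
  filter_upwards [hX.cont, hX.eval_zero_ae_eq_zero] with ω hc h0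
  apply propext
  change (path X ω ∈ ⋂ m, D b t m) ↔ ∀ s ≤ t, |X s ω| ≤ b
  rw [mem_iInter]
  constructor
  · intro h s hs
    have hlim : Tendsto (fun m : ℕ => (⌊(s : ℝ) * 2 ^ m⌋₊ : ℝ≥0) * st m) atTop (𝓝 s) := by
      rw [← NNReal.tendsto_coe]
      have h1 : Tendsto (fun m : ℕ => (s : ℝ) - ((2 : ℝ) ^ m)⁻¹) atTop (𝓝 (s - 0)) := by
        apply Tendsto.sub tendsto_const_nhds
        exact (tendsto_pow_atTop_atTop_of_one_lt (by norm_num)).inv_tendsto_atTop
      rw [sub_zero] at h1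
      refine tendsto_of_tendsto_of_tendsto_of_le_of_le h1 tendsto_const_nhds ?_ ?_
      · intro m
        simp only [NNReal.coe_mul, NNReal.coe_natCast]
        rw [st_coe]
        have h2 : (0 : ℝ) < 2 ^ m := by positivity
        have h3 := Nat.lt_floor_add_one ((s : ℝ) * 2 ^ m)
        rw [← div_eq_mul_inv, le_div_iff₀ h2, sub_mul, inv_mul_cancel₀ h2.ne']
        linarith
      · intro m
        simp only [NNReal.coe_mul, NNReal.coe_natCast]
        rw [st_coe]
        have h2 : (0 : ℝ) < 2 ^ m := by positivity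
        have h3 := Nat.floor_le (show 0 ≤ (s : ℝ) * 2 ^ m by positivity)
        rw [← div_eq_mul_inv, div_le_iff₀ h2]
        exact h3
    have hX' : Tendsto (fun m : ℕ => |X ((⌊(s : ℝ) * 2 ^ m⌋₊ : ℝ≥0) * st m) ω|) atTop
        (𝓝 |X s ω|) := ((hc.tendsto s).comp hlim).abs
    apply le_of_tendsto' hX'
    intro m
    rcases Nat.eq_zero_or_pos ⌊(s : ℝ) * 2 ^ m⌋₊ with h1 | h1
    · rw [h1]; simp [h0, hb]
    · obtain ⟨j, hj⟩ := Nat.exists_eq_add_of_lt h1
      have h2 : ⌊(s : ℝ) * 2 ^ m⌋₊ = j + 1 := by omega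
      have h3 : ⌊(s : ℝ) * 2 ^ m⌋₊ ≤ ⌊(t : ℝ) * 2 ^ m⌋₊ := by
        apply Nat.floor_mono
        have : (s : ℝ) ≤ t := by exact_mod_cast hs
        gcongr
      have h4 := h m j (by omega)
      rw [h2]
      exact h4
  · intro h m j hj
    apply h
    have h1 : ((j + 1 : ℕ) : ℝ) ≤ (t : ℝ) * 2 ^ m :=
      le_trans (by exact_mod_cast hj) (Nat.floor_le (by positivity))
    have h2 : (0 : ℝ) < 2 ^ m := by positivity
    rw [← NNReal.coe_le_coe]
    push_cast
    rw [st_coe, ← div_eq_mul_inv, div_le_iff₀ h2]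
    exact_mod_cast h1

lemma P_closed_one (hX : IsBrownianReal X P) (t : ℝ≥0) :
    P {ω | ∀ s ≤ t, |X s ω| ≤ 1} = F t := by
  have : IsProbabilityMeasure P := hX.isGaussianProcess.isProbabilityMeasure
  rw [← measure_congr (closed_ae hX zero_le_one t), preimage_iInter]
  rw [Antitone.measure_iInter (s := fun m => path X ⁻¹' D 1 (t : ℝ) m)
    (fun m n h => preimage_mono (D_anti t.2 h))
    (fun m => null_D hX.toIsPreBrownianReal _ _ _) ⟨0, measure_ne_top _ _⟩]
  unfold F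
  congr with m
  exact P_D hX.toIsPreBrownianReal _ _

lemma P_closed (hX : IsBrownianReal X P) {a : ℝ} (ha : 0 < a) (t : ℝ≥0) :
    P {ω | ∀ s ≤ t, |X s ω| ≤ a} = F (t / a ^ 2) := by
  set c : ℝ≥0 := ⟨a ^ 2, by positivity⟩ with hc
  have hcr : (c : ℝ) = a ^ 2 := rfl
  have hc0 : c ≠ 0 := by
    intro h
    have : (c : ℝ) = 0 := by rw [h]; rfl
    rw [hcr] at this
    exact absurd this (by positivity)
  have h := P_closed_one (hX.smul hc0) (t / c)
  have e : (((t / c : ℝ≥0)) : ℝ) = t / a ^ 2 := by push_cast; rw [hcr]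
  rw [e] at h
  rw [← h]
  congr 1
  ext ω
  change (∀ s ≤ t, |X s ω| ≤ a) ↔ ∀ s ≤ t / c, |(√c)⁻¹ * X (c * s) ω| ≤ 1
  have hs : √(c : ℝ) = a := by rw [hcr]; exact Real.sqrt_sq ha.le
  have key : ∀ y : ℝ, |(√(c : ℝ))⁻¹ * y| ≤ 1 ↔ |y| ≤ a := by
    intro y
    rw [hs, abs_mul, abs_of_pos (inv_pos.2 ha), inv_mul_le_iff₀ ha, mul_one]
  simp_rw [key]
  constructor
  · intro h s hs
    apply h
    rw [mul_comm]
    exact (le_div_iff₀ (pos_iff_ne_zero.2 hc0)).1 hs
  · intro h s hs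
    have h1 := h (s / c) (by gcongr)
    rwa [mul_div_cancel₀ _ hc0] at h1

/-- Contraction factors increasing to `1`. -/
noncomputable def cc (n : ℕ) : ℝ := (n + 1) / (n + 2)

lemma cc_pos (n : ℕ) : 0 < cc n := by unfold cc; positivity

lemma cc_lt (n : ℕ) : cc n < cc (n + 1) := by
  unfold cc
  rw [div_lt_div_iff₀ (by positivity) (by positivity)]
  push_cast
  nlinarith

lemma cc_lt_one (n : ℕ) : cc n < 1 := by
  unfold cc
  rw [div_lt_one (by positivity)]
  linarith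

lemma cc_mono : Monotone cc := monotone_nat_of_le_succ fun n => (cc_lt n).le

lemma cc_lim : Tendsto cc atTop (𝓝 1) := by
  have h : ∀ n : ℕ, cc n = 1 - 1 / ((n + 1 : ℕ) + 1 : ℝ) := by
    intro n; unfold cc; push_cast; field_simp; ring
  simp_rw [funext h]
  have h2 := (tendsto_add_atTop_iff_nat 1).2 (tendsto_one_div_add_atTop_nhds_zero_nat (𝕜 := ℝ))
  simpa using (tendsto_const_nhds (x := (1 : ℝ))).sub h2

/-- Survival probability of Brownian motion in the open interval `(-1,1)`. -/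
noncomputable def F0 (t : ℝ) : ℝ≥0∞ := ⨆ n : ℕ, F (t / cc n ^ 2)

/-- A measurable set of paths which almost surely detects survival in `(-a,a)`. -/
def M (a t : ℝ) : Set (ℝ≥0 → ℝ) := ⋃ n : ℕ, ⋂ m : ℕ, D (a * cc n) t m

lemma measurable_M (a t : ℝ) : MeasurableSet (M a t) :=
  MeasurableSet.iUnion fun _ => MeasurableSet.iInter fun _ => measurable_D _ _ _

lemma null_M (hX : IsPreBrownianReal X P) (a t : ℝ) :
    NullMeasurableSet (path X ⁻¹' M a t) P := by
  unfold M
  simp_rw [preimage_iUnion, preimage_iInter]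
  exact NullMeasurableSet.iUnion fun _ => NullMeasurableSet.iInter fun _ => null_D hX _ _ _

lemma open_eq (hc : ∀ᵐ ω ∂P, Continuous (X · ω)) {a : ℝ} (ha : 0 < a) (t : ℝ≥0) :
    (⋃ n : ℕ, {ω | ∀ s ≤ t, |X s ω| ≤ a * cc n}) =ᵐ[P] {ω | ∀ s ≤ t, |X s ω| < a} := by
  filter_upwards [hc] with ω hω
  apply propext
  change (ω ∈ ⋃ n : ℕ, {ω | ∀ s ≤ t, |X s ω| ≤ a * cc n}) ↔ ∀ s ≤ t, |X s ω| < a
  rw [mem_iUnion]
  constructor
  · rintro ⟨n, hn⟩ s hs
    exact lt_of_le_of_lt (hn s hs) (by nlinarith [cc_lt_one n])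
  · intro h
    obtain ⟨s0, hs0, hmax⟩ := (isCompact_Icc (a := (0 : ℝ≥0)) (b := t)).exists_isMaxOn
      ⟨0, ⟨le_rfl, zero_le⟩⟩ (hω.abs.continuousOn)
    have h1 : |X s0 ω| < a := h s0 hs0.2
    have h2 : Tendsto (fun n => a * cc n) atTop (𝓝 a) := by
      simpa using cc_lim.const_mul a
    obtain ⟨n, hn⟩ := ((tendsto_order.1 h2).1 _ h1).exists
    exact ⟨n, fun s hs => (hmax ⟨zero_le, hs⟩).trans hn.le⟩

lemma open_ae (hX : IsBrownianReal X P) {a : ℝ} (ha : 0 < a) (t : ℝ≥0) :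
    (path X ⁻¹' M a t) =ᵐ[P] {ω | ∀ s ≤ t, |X s ω| < a} := by
  refine EventuallyEq.trans ?_ (open_eq hX.cont ha t)
  unfold M
  rw [preimage_iUnion]
  exact Filter.EventuallyEq.countable_iUnion fun n => closed_ae hX (by have := cc_pos n; positivity) t

lemma P_open (hX : IsBrownianReal X P) {a : ℝ} (ha : 0 < a) (t : ℝ≥0) :
    P {ω | ∀ s ≤ t, |X s ω| < a} = F0 (t / a ^ 2) := by
  rw [← measure_congr (open_eq hX.cont ha t), Monotone.measure_iUnion]
  · unfold F0
    congr with n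
    rw [P_closed hX (mul_pos ha (cc_pos n))]
    congr 1
    have := cc_pos n
    field_simp
  · intro n m hnm ω h s hs
    exact (h s hs).trans (mul_le_mul_of_nonneg_left (cc_mono hnm) ha.le)

end Pool.Agent.Q240.BX
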