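import Pool.Agent.Q240.BX.Path

/-!
Properties of the survival function of Brownian motion in an interval: the product inequality,
geometric decay, and flatness at time zero.
-/

namespace Pool.Agent.Q240.BX

open MeasureTheory ProbabilityTheory Set Filter
open scoped ENNReal NNReal Topology

/-- Supporting lines of a log-concave decreasing sequence. -/
lemma seq_line (a : ℕ → ℝ) (hpos : ∀ k, 0 < a k)
    (hlc : ∀ k, a (k + 2) * a k ≤ a (k + 1) * a (k + 1)) (n k : ℕ) :
    a k * (a (n + 1) / a n) ^ n ≤ a n * (a (n + 1) / a n) ^ k := by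
  set r : ℕ → ℝ := fun k => a (k + 1) / a k with hr
  have hr0 : ∀ k, 0 < r k := fun k => div_pos (hpos _) (hpos _)
  have hra : Antitone r := by
    refine antitone_nat_of_succ_le fun k => ?_
    rw [hr]
    simp only
    rw [div_le_div_iff₀ (hpos _) (hpos _)]
    exact hlc k
  have hstep : ∀ k, a (k + 1) = r k * a k := fun k => by
    rw [hr]; simp only; rw [div_mul_cancel₀ _ (hpos k).ne']
  have up : ∀ j, a (n + j) ≤ a n * r n ^ j := by
    intro j
    induction j with
    | zero => simp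
    | succ j ih =>
      rw [← add_assoc, hstep, pow_succ]
      calc r (n + j) * a (n + j) ≤ r n * (a n * r n ^ j) :=
            mul_le_mul (hra (by omega)) ih (hpos _).le (hr0 _).le
        _ = _ := by ring
  have down : ∀ j k, k + j = n → a k * r n ^ j ≤ a n := by
    intro j
    induction j with
    | zero => intro k hk; rw [add_zero] at hk; subst hk; simp
    | succ j ih =>
      intro k hk
      have h1 := ih (k + 1) (by omega)
      refine le_trans ?_ h1
      rw [hstep, pow_succ]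
      have h2 : r n ≤ r k := hra (by omega)
      calc a k * (r n ^ j * r n) = r n * (a k * r n ^ j) := by ring
        _ ≤ r k * (a k * r n ^ j) := by
            apply mul_le_mul_of_nonneg_right h2
            exact mul_nonneg (hpos _).le (pow_nonneg (hr0 _).le _)
        _ = _ := by ring
  change a k * r n ^ n ≤ a n * r n ^ k
  rcases le_total n k with h | h
  · obtain ⟨j, rfl⟩ := Nat.exists_eq_add_of_le h
    calc a (n + j) * r n ^ n ≤ (a n * r n ^ j) * r n ^ n :=
          mul_le_mul_of_nonneg_right (up j) (pow_nonneg (hr0 _).le _)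
      _ = _ := by rw [pow_add]; ring
  · obtain ⟨j, hj⟩ := Nat.exists_eq_add_of_le h
    have h1 := down j k hj.symm
    have h2 : r n ^ n = r n ^ j * r n ^ k := by rw [← pow_add]; congr 1; omega
    calc a k * r n ^ n = (a k * r n ^ j) * r n ^ k := by
          rw [h2]; ring
      _ ≤ _ := mul_le_mul_of_nonneg_right h1 (pow_nonneg (hr0 _).le _)

lemma seq_prod (a : ℕ → ℝ) (hpos : ∀ k, 0 < a k) (hanti : Antitone a)
    (hlc : ∀ k, a (k + 2) * a k ≤ a (k + 1) * a (k + 1)) (n : ℕ) {ι : Type*} (s : Finset ι)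
    (k : ι → ℕ) (h : n * s.card ≤ ∑ i ∈ s, k i) : ∏ i ∈ s, a (k i) ≤ a n ^ s.card := by
  set θ := a (n + 1) / a n with hθ
  have hθ0 : 0 < θ := div_pos (hpos _) (hpos _)
  have hθ1 : θ ≤ 1 := (div_le_one (hpos _)).2 (hanti (by omega))
  have h1 : ∏ i ∈ s, (a (k i) * θ ^ n) ≤ ∏ i ∈ s, (a n * θ ^ k i) :=
    Finset.prod_le_prod (fun i _ => mul_nonneg (hpos _).le (pow_nonneg hθ0.le _))
      (fun i _ => seq_line a hpos hlc n (k i))
  rw [Finset.prod_mul_distrib, Finset.prod_mul_distrib, Finset.prod_const, Finset.prod_const,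
    Finset.prod_pow_eq_pow_sum, ← pow_mul] at h1
  have h2 : θ ^ (∑ i ∈ s, k i) ≤ θ ^ (n * s.card) := pow_le_pow_of_le_one hθ0.le hθ1 h
  have h3 : (∏ i ∈ s, a (k i)) * θ ^ (n * s.card) ≤ a n ^ s.card * θ ^ (n * s.card) :=
    h1.trans (mul_le_mul_of_nonneg_left h2 (pow_nonneg (hpos _).le _))
  exact le_of_mul_le_mul_right h3 (pow_pos hθ0 _)

lemma w_prod {δ : ℝ≥0} (hδ : δ ≠ 0) (n : ℕ) {ι : Type*} (s : Finset ι) (k : ι → ℕ)
    (h : n * s.card ≤ ∑ i ∈ s, k i) : ∏ i ∈ s, w δ (k i) 0 ≤ w δ n 0 ^ s.card := by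
  have hfin : ∀ k, w δ k 0 ≠ ∞ := fun k => ne_top_of_le_ne_top ENNReal.one_ne_top (w_le_one hδ k 0)
  set a : ℕ → ℝ := fun k => (w δ k 0).toReal with ha
  have h1 := seq_prod a (fun k => ENNReal.toReal_pos (w_pos hδ k 0).ne' (hfin k))
    (fun k l hkl => ENNReal.toReal_mono (hfin k) (w_antitone hδ 0 hkl))
    (fun k => by
      rw [ha]; simp only
      rw [← ENNReal.toReal_mul, ← ENNReal.toReal_mul]
      exact ENNReal.toReal_mono (ENNReal.mul_ne_top (hfin _) (hfin _)) (w_logconcave hδ k)) n s k h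
  rw [← ENNReal.toReal_le_toReal]
  · rw [ENNReal.toReal_prod, ENNReal.toReal_pow]
    exact h1
  · exact ENNReal.prod_ne_top fun i _ => hfin _
  · exact ENNReal.pow_ne_top (hfin _)

lemma G_le_one (m : ℕ) (t : ℝ) : G m t ≤ 1 := w_le_one (st_ne m) _ _

lemma F_le_one (t : ℝ) : F t ≤ 1 := (iInf_le _ 0).trans (G_le_one 0 t)

lemma F_anti : Antitone F := by
  intro s t hst
  unfold F
  refine iInf_mono fun m => ?_
  unfold G
  apply w_antitone (st_ne m) 0
  apply Nat.floor_mono
  gcongr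

lemma F0_le_one (t : ℝ) : F0 t ≤ 1 := iSup_le fun _ => F_le_one _

lemma F0_anti : Antitone F0 := by
  intro s t hst
  unfold F0
  refine iSup_mono fun n => F_anti ?_
  have := cc_pos n
  gcongr

lemma F_le_F0 {t : ℝ} (n : ℕ) : F (t / cc n ^ 2) ≤ F0 t := le_iSup (fun n => F (t / cc n ^ 2)) n

lemma F0_le_F {t : ℝ} (ht : 0 ≤ t) : F0 t ≤ F t := by
  refine iSup_le fun n => F_anti ?_
  rw [le_div_iff₀ (by have := cc_pos n; positivity)]
  have h1 : cc n ^ 2 ≤ 1 := pow_le_one₀ (cc_pos n).le (cc_lt_one n).le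
  nlinarith

lemma tendsto_F0 {t : ℝ} (ht : 0 ≤ t) : Tendsto (fun n => F (t / cc n ^ 2)) atTop (𝓝 (F0 t)) := by
  apply tendsto_atTop_iSup
  intro n m hnm
  apply F_anti
  have h1 := cc_mono hnm
  have h2 := cc_pos n
  gcongr

lemma F_prod (hG : ∀ t : ℝ, 0 ≤ t → Antitone (fun m => G m t)) {d : ℕ}
    (s : Fin d → ℝ) (hsum : ∑ i, s i = d) {t t' : ℝ} (ht' : 0 ≤ t')
    (htt : t' < t) : ∏ i, F (s i * t) ≤ F t' ^ d := by
  have hlim : Tendsto (fun m => G m t' ^ d) atTop (𝓝 (F t' ^ d)) :=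
    ENNReal.Tendsto.pow (tendsto_atTop_iInf (hG t' ht'))
  refine ge_of_tendsto hlim ?_
  have hev : ∀ᶠ m : ℕ in atTop, 1 / (t - t') ≤ (2 : ℝ) ^ m :=
    (tendsto_pow_atTop_atTop_of_one_lt (by norm_num : (1 : ℝ) < 2)).eventually_ge_atTop _
  filter_upwards [hev] with m hm
  have hpos : 0 < t - t' := sub_pos.2 htt
  have hm' : 1 ≤ (t - t') * 2 ^ m := by
    rw [div_le_iff₀ hpos] at hm
    linarith
  calc ∏ i, F (s i * t) ≤ ∏ i, G m (s i * t) :=
        Finset.prod_le_prod' fun i _ => iInf_le _ m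
    _ ≤ _ := ?_
  unfold G
  have hcard : d = (Finset.univ : Finset (Fin d)).card := by simp
  conv_rhs => rw [hcard]
  apply w_prod (st_ne m)
  rw [← hcard]
  have h1 : ∀ i, s i * t * 2 ^ m - 1 ≤ (⌊s i * t * 2 ^ m⌋₊ : ℝ) := fun i =>
    (Nat.sub_one_lt_floor _).le
  have h2 : ((⌊t' * 2 ^ m⌋₊ : ℕ) : ℝ) ≤ t' * 2 ^ m := Nat.floor_le (by positivity)
  have h3 : ((⌊t' * 2 ^ m⌋₊ * d : ℕ) : ℝ) ≤ ((∑ i, ⌊s i * t * 2 ^ m⌋₊ : ℕ) : ℝ) := by
    push_cast
    calc (⌊t' * 2 ^ m⌋₊ : ℝ) * d ≤ (t' * 2 ^ m) * d := by gcongr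
      _ ≤ (t * 2 ^ m - 1) * d := by
          apply mul_le_mul_of_nonneg_right _ (by positivity)
          nlinarith
      _ = ∑ i, (s i * t * 2 ^ m - 1) := by
          rw [Finset.sum_sub_distrib]
          simp_rw [mul_assoc]
          rw [← Finset.sum_mul, hsum]
          simp
          ring
      _ ≤ ∑ i, (⌊s i * t * 2 ^ m⌋₊ : ℝ) := Finset.sum_le_sum fun i _ => h1 i
  exact_mod_cast h3

/-- The product inequality: among the products with prescribed sum of arguments the
diagonal one is the largest. -/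
lemma F0_prod (hG : ∀ t : ℝ, 0 ≤ t → Antitone (fun m => G m t)) {d : ℕ}
    (s : Fin d → ℝ) (hs : ∀ i, 0 < s i) (hsum : ∑ i, s i = d) {t : ℝ} (ht : 0 < t) :
    ∏ i, F0 (s i * t) ≤ F0 t ^ d := by
  have hlim : Tendsto (fun n => ∏ i, F (s i * t / cc n ^ 2)) atTop (𝓝 (∏ i, F0 (s i * t))) := by
    apply ENNReal.tendsto_finsetProd_of_ne_top
    · intro i _
      exact tendsto_F0 (by have := hs i; positivity)
    · intro i _
      exact ne_top_of_le_ne_top ENNReal.one_ne_top (F0_le_one _)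
  apply le_of_tendsto' hlim
  intro n
  have h1 : t / cc (n + 1) ^ 2 < t / cc n ^ 2 := by
    have h2 := cc_pos n
    have h3 := cc_lt n
    gcongr
  have h4 := F_prod hG s hsum (t := t / cc n ^ 2) (t' := t / cc (n + 1) ^ 2)
    (by have := cc_pos (n + 1); positivity) h1
  calc ∏ i, F (s i * t / cc n ^ 2) = ∏ i, F (s i * (t / cc n ^ 2)) := by
        congr with i; rw [mul_div_assoc]
    _ ≤ F (t / cc (n + 1) ^ 2) ^ d := h4
    _ ≤ F0 t ^ d := by gcongr; exact F_le_F0 (n + 1)

/-- One step of the walk with variance one stays in `[-1,1]` with probability less than one. -/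
lemma w_one_lt : w 1 1 0 < 1 := by
  have h : w 1 1 0 = gaussianReal 0 1 {y : ℝ | |y| ≤ 1} := by
    rw [w_succ]
    have mset : MeasurableSet {y : ℝ | |y| ≤ 1} := measurableSet_le (by fun_prop) measurable_const
    rw [← lintegral_indicator_one mset]
    have h2 := gauss_even (one_ne_zero (α := ℝ≥0)) (f := {y : ℝ | |y| ≤ 1}.indicator 1)
      (measurable_one.indicator mset) ?_ 0
    · simp only [zero_add] at h2
      rw [h2]
      unfold K
      apply lintegral_congr_ae
      filter_upwards [ae_restrict_mem measurableSet_Ioi] with y hy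
      have hy0 : (0 : ℝ) < y := hy
      congr 1
      by_cases h : y ≤ 1
      · rw [indicator_of_mem (show y ∈ {y : ℝ | |y| ≤ 1} by
          change |y| ≤ 1; rwa [abs_of_pos hy0]), indicator_of_mem (show y ∈ Iic (1 : ℝ) from h)]
        rfl
      · rw [indicator_of_notMem (show y ∉ {y : ℝ | |y| ≤ 1} by
          change ¬ |y| ≤ 1; rwa [abs_of_pos hy0]),
          indicator_of_notMem (show y ∉ Iic (1 : ℝ) from h)]
    · intro y
      by_cases h : |y| ≤ 1
      · rw [indicator_of_mem (show -y ∈ {y : ℝ | |y| ≤ 1} by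
          change |-y| ≤ 1; rwa [abs_neg]), indicator_of_mem (show y ∈ {y : ℝ | |y| ≤ 1} from h)]
        rfl
      · rw [indicator_of_notMem (show -y ∉ {y : ℝ | |y| ≤ 1} by
          change ¬ |-y| ≤ 1; rwa [abs_neg]),
          indicator_of_notMem (show y ∉ {y : ℝ | |y| ≤ 1} from h)]
  rw [h]
  refine lt_of_le_of_ne prob_le_one fun heq => ?_
  have mset : MeasurableSet {y : ℝ | |y| ≤ 1} := measurableSet_le (by fun_prop) measurable_const
  have h1 : gaussianReal 0 1 {y : ℝ | |y| ≤ 1}ᶜ = 0 := by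
    rw [prob_compl_eq_zero_iff mset]; exact heq
  have h2 := gaussianReal_absolutelyContinuous' 0 (one_ne_zero (α := ℝ≥0)) h1
  have h3 : Ioi (1 : ℝ) ⊆ {y : ℝ | |y| ≤ 1}ᶜ := by
    intro y hy
    change ¬ |y| ≤ 1
    rw [not_le]
    exact lt_of_lt_of_le hy (le_abs_self y)
  have h4 : (volume : Measure ℝ) (Ioi (1 : ℝ)) = 0 := measure_mono_null h3 h2
  simp at h4

lemma w_one_geom (k : ℕ) : w 1 k 0 ≤ w 1 1 0 ^ k := by
  have h := w_prod (one_ne_zero (α := ℝ≥0)) 1 (Finset.range k) (fun i => if i = 0 then k else 0)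
  have hne : (1 : ℝ≥0) ≠ 0 := one_ne_zero
  rcases Nat.eq_zero_or_pos k with hk | hk
  · subst hk; simp [w_zero]
  · have h1 : 1 * (Finset.range k).card ≤
        ∑ i ∈ Finset.range k, (fun i => if i = 0 then k else 0) i := by
      rw [Finset.card_range, one_mul]
      have := Finset.single_le_sum (f := fun i => if i = 0 then k else 0)
        (fun i _ => Nat.zero_le _) (Finset.mem_range.2 hk)
      simpa using this
    have h2 := h h1
    rw [Finset.card_range] at h2
    refine le_trans (le_of_eq ?_) h2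
    rw [Finset.prod_eq_single 0]
    · simp
    · intro b _ hb
      simp [hb, w_zero]
    · intro h; exact absurd (Finset.mem_range.2 hk) h

lemma st_zero : st 0 = 1 := by unfold st; simp

/-- Geometric decay of the survival probability. -/
lemma F0_geom {t : ℝ} (ht : 0 ≤ t) : F0 t ≤ w 1 1 0 ^ ⌊t⌋₊ := by
  refine (F0_le_F ht).trans ((iInf_le _ 0).trans ?_)
  unfold G
  rw [st_zero]
  simpa using w_one_geom ⌊t⌋₊

/-- The flatness bound for the walk. -/
lemma w_flat {δ : ℝ≥0} (hδ : δ ≠ 0) {θ : ℝ} (hθ : 0 ≤ θ) : ∀ (k : ℕ) (x : ℝ),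
    1 ≤ w δ k x + ENNReal.ofReal (Real.exp (-θ) * (Real.exp (θ * x) + Real.exp (-θ * x)) *
      Real.exp (k * δ * θ ^ 2 / 2)) := by
  set h : ℕ → ℝ → ℝ := fun k x => Real.exp (-θ) * (Real.exp (θ * x) + Real.exp (-θ * x)) *
      Real.exp (k * δ * θ ^ 2 / 2) with hh
  have hbig : ∀ k (x : ℝ), 1 < |x| → 1 ≤ h k x := by
    intro k x hx
    have e1 : 1 ≤ Real.exp (k * δ * θ ^ 2 / 2) := Real.one_le_exp (by positivity)
    have e2 : Real.exp θ ≤ Real.exp (θ * x) + Real.exp (-θ * x) := by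
      rcases lt_abs.1 hx with h1 | h1
      · have : Real.exp θ ≤ Real.exp (θ * x) := Real.exp_le_exp.2 (by nlinarith)
        linarith [Real.exp_pos (-θ * x)]
      · have : Real.exp θ ≤ Real.exp (-θ * x) := Real.exp_le_exp.2 (by nlinarith)
        linarith [Real.exp_pos (θ * x)]
    have e3 : 1 ≤ Real.exp (-θ) * (Real.exp (θ * x) + Real.exp (-θ * x)) := by
      calc 1 = Real.exp (-θ) * Real.exp θ := by rw [← Real.exp_add]; simp
        _ ≤ _ := mul_le_mul_of_nonneg_left e2 (Real.exp_pos _).le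
    calc (1 : ℝ) = 1 * 1 := by ring
      _ ≤ _ := mul_le_mul e3 e1 zero_le_one (by positivity)
  have hint : ∀ c x : ℝ, ∫⁻ z, ENNReal.ofReal (Real.exp (c * (x + z))) ∂(gaussianReal 0 δ) =
      ENNReal.ofReal (Real.exp (c * x) * Real.exp (δ * c ^ 2 / 2)) := by
    intro c x
    have i1 : Integrable (fun z => Real.exp (c * z)) (gaussianReal 0 δ) :=
      integrable_exp_mul_gaussianReal c
    have e0 : ∀ z, Real.exp (c * (x + z)) = Real.exp (c * x) * Real.exp (c * z) := fun z => by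
      rw [mul_add, Real.exp_add]
    simp_rw [e0]
    rw [← ofReal_integral_eq_lintegral_ofReal (i1.const_mul _)
      (Eventually.of_forall fun z => by positivity), integral_const_mul]
    congr 2
    have := congrFun (mgf_id_gaussianReal (μ := 0) (v := δ)) c
    rw [mgf] at this
    simpa using this
  have hnext : ∀ k x, ∫⁻ z, ENNReal.ofReal (h k (x + z)) ∂(gaussianReal 0 δ) =
      ENNReal.ofReal (h (k + 1) x) := by
    intro k x
    have e1 : ∀ z, ENNReal.ofReal (h k (x + z)) =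
        ENNReal.ofReal (Real.exp (-θ) * Real.exp (k * δ * θ ^ 2 / 2)) *
        (ENNReal.ofReal (Real.exp (θ * (x + z))) + ENNReal.ofReal (Real.exp (-θ * (x + z)))) := by
      intro z
      rw [← ENNReal.ofReal_add (Real.exp_pos _).le (Real.exp_pos _).le,
        ← ENNReal.ofReal_mul (by positivity)]
      congr 1
      rw [hh]; ring
    simp_rw [e1]
    rw [lintegral_const_mul _ (by fun_prop), lintegral_add_left (by fun_prop), hint, hint,
      ← ENNReal.ofReal_add (by positivity) (by positivity), ← ENNReal.ofReal_mul (by positivity)]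
    congr 1
    rw [hh]
    simp only
    have e2 : Real.exp ((k + 1 : ℕ) * δ * θ ^ 2 / 2) =
        Real.exp (k * δ * θ ^ 2 / 2) * Real.exp (δ * θ ^ 2 / 2) := by
      rw [← Real.exp_add]; congr 1; push_cast; ring
    have e3 : (-θ) ^ 2 = θ ^ 2 := by ring
    rw [e2, e3]; ring
  have mh : ∀ k, Measurable (fun x => ENNReal.ofReal (h k x)) := by
    intro k; rw [hh]; fun_prop
  intro k
  induction k with
  | zero => intro x; rw [w_zero]; exact le_self_add
  | succ k ih =>
    intro x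
    change 1 ≤ w δ (k + 1) x + ENNReal.ofReal (h (k + 1) x)
    have ih' : ∀ x, 1 ≤ w δ k x + ENNReal.ofReal (h k x) := ih
    set g : ℝ → ℝ≥0∞ := {y | |y| ≤ 1}.indicator (w δ k) with hg
    have mset : MeasurableSet {y : ℝ | |y| ≤ 1} := measurableSet_le (by fun_prop) measurable_const
    have mg : Measurable g := (measurable_w δ k).indicator mset
    have e1 : w δ (k + 1) x = ∫⁻ z, g (x + z) ∂(gaussianReal 0 δ) := by
      rw [gauss_even hδ mg ?_ x, w_succ]
      · unfold K
        apply lintegral_congr_ae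
        filter_upwards [ae_restrict_mem measurableSet_Ioi] with y hy
        have hy0 : (0 : ℝ) < y := hy
        congr 1
        by_cases h : y ≤ 1
        · rw [hg, indicator_of_mem (show y ∈ {y : ℝ | |y| ≤ 1} by
            change |y| ≤ 1; rwa [abs_of_pos hy0]), indicator_of_mem (show y ∈ Iic (1 : ℝ) from h)]
        · rw [hg, indicator_of_notMem (show y ∉ {y : ℝ | |y| ≤ 1} by
            change ¬ |y| ≤ 1; rwa [abs_of_pos hy0]),
            indicator_of_notMem (show y ∉ Iic (1 : ℝ) from h)]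
      · intro y
        by_cases h : |y| ≤ 1
        · rw [hg, indicator_of_mem (show -y ∈ {y : ℝ | |y| ≤ 1} by
            change |-y| ≤ 1; rwa [abs_neg]), indicator_of_mem (show y ∈ {y : ℝ | |y| ≤ 1} from h),
            w_even]
        · rw [hg, indicator_of_notMem (show -y ∉ {y : ℝ | |y| ≤ 1} by
            change ¬ |-y| ≤ 1; rwa [abs_neg]),
            indicator_of_notMem (show y ∉ {y : ℝ | |y| ≤ 1} from h)]
    have mgx : Measurable (fun z => g (x + z)) := mg.comp (measurable_const_add x)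
    rw [e1, ← hnext, ← lintegral_add_left mgx]
    calc (1 : ℝ≥0∞) = ∫⁻ _, 1 ∂(gaussianReal 0 δ) := by simp
      _ ≤ _ := by
        apply lintegral_mono
        intro z
        by_cases hz : |x + z| ≤ 1
        · simp only [hg]
          rw [indicator_of_mem (show x + z ∈ {y : ℝ | |y| ≤ 1} from hz)]
          exact ih' _
        · refine le_trans ?_ (self_le_add_left _ _)
          rw [← ENNReal.ofReal_one]
          exact ENNReal.ofReal_le_ofReal (hbig k _ (not_le.1 hz))

/-- The survival function is flat at time zero. -/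
lemma F0_flat {t : ℝ} (ht : 0 < t) :
    1 ≤ F0 t + ENNReal.ofReal (2 * Real.exp (-(1 / (8 * t)))) := by
  have hT : 0 < t / cc 0 ^ 2 := by have := cc_pos 0; positivity
  have hT4 : t / cc 0 ^ 2 = 4 * t := by unfold cc; norm_num; ring
  refine le_trans ?_ (add_le_add_left (F_le_F0 0) _)
  rw [hT4]
  have key : 1 - ENNReal.ofReal (2 * Real.exp (-(1 / (8 * t)))) ≤ F (4 * t) := by
    unfold F
    refine le_iInf fun m => ?_
    rw [tsub_le_iff_right]
    unfold G
    refine (w_flat (st_ne m) (θ := 1 / (4 * t)) (by positivity) ⌊4 * t * 2 ^ m⌋₊ 0).trans ?_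
    refine add_le_add_right (ENNReal.ofReal_le_ofReal ?_) _
    rw [mul_zero, mul_zero, Real.exp_zero]
    have h1 : (⌊4 * t * 2 ^ m⌋₊ : ℝ) * (st m : ℝ) ≤ 4 * t := by
      rw [st_coe, ← div_eq_mul_inv, div_le_iff₀ (by positivity)]
      exact Nat.floor_le (by positivity)
    have h2 : Real.exp ((⌊4 * t * 2 ^ m⌋₊ : ℝ) * (st m : ℝ) * (1 / (4 * t)) ^ 2 / 2) ≤
        Real.exp (4 * t * (1 / (4 * t)) ^ 2 / 2) := by
      apply Real.exp_le_exp.2
      gcongr
    calc Real.exp (-(1 / (4 * t))) * (1 + 1) *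
          Real.exp ((⌊4 * t * 2 ^ m⌋₊ : ℝ) * (st m : ℝ) * (1 / (4 * t)) ^ 2 / 2)
        ≤ Real.exp (-(1 / (4 * t))) * (1 + 1) * Real.exp (4 * t * (1 / (4 * t)) ^ 2 / 2) := by
          gcongr
      _ = 2 * (Real.exp (-(1 / (4 * t))) * Real.exp (4 * t * (1 / (4 * t)) ^ 2 / 2)) := by ring
      _ = 2 * Real.exp (-(1 / (8 * t))) := by
          rw [← Real.exp_add]; congr 2; field_simp; ring
  rw [tsub_le_iff_right] at key
  exact key

end Pool.Agent.Q240.BX
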